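import Pool.Agent.H73.TS.Targets

/-! Module ISO: invariance of the Wills functional under isometries. -/

open MeasureTheory Set Metric
open scoped ENNReal

namespace Pool.Agent.H11.TS

open Pool.Agent.H73.TS

theorem iso : T_ISO := by
  intro d Q
  constructor
  · intro R
    unfold W
    have h1 := (R.measurePreserving).integral_comp R.toHomeomorph.measurableEmbedding
      (fun x : E d => Real.exp (-(Real.pi * infDist x ((fun x => R x) '' Q) ^ 2)))
    rw [← h1]
    refine integral_congr_ae (Filter.Eventually.of_forall fun x => ?_)
    have h2 : infDist (R x) ((fun x => R x) '' Q) = infDist x Q := infDist_image R.isometry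
    simp only [h2]
  · intro v
    unfold W
    rw [← integral_add_left_eq_self
      (fun x : E d => Real.exp (-(Real.pi * infDist x ((fun x => v + x) '' Q) ^ 2))) v]
    refine integral_congr_ae (Filter.Eventually.of_forall fun x => ?_)
    have h2 : infDist (v + x) ((fun x => v + x) '' Q) = infDist x Q :=
      infDist_image (isometry_add_left v)
    simp only [h2]

end Pool.Agent.H11.TS
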