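import Pool.Agent.H73.TS.Targets

/-! Module MON: monotonicity of the Wills functional. -/

open MeasureTheory Set Metric
open scoped ENNReal

namespace Pool.Agent.H11.TS

open Pool.Agent.H73.TS

theorem mon (hINT : T_INT) : T_MON := by
  intro d Q Q' hQ hQQ' hb
  have h1 := (hINT d Q hQ (hb.subset hQQ')).1
  have h2 := (hINT d Q' (hQ.mono hQQ') hb).1
  unfold W
  refine integral_mono h1 h2 fun x => ?_
  have h3 : infDist x Q' ≤ infDist x Q := infDist_le_infDist_of_subset hQQ' hQ
  have h4 : 0 ≤ infDist x Q' := infDist_nonneg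
  show Real.exp (-(Real.pi * infDist x Q ^ 2)) ≤ Real.exp (-(Real.pi * infDist x Q' ^ 2))
  apply Real.exp_le_exp.2
  have h5 : infDist x Q' ^ 2 ≤ infDist x Q ^ 2 := pow_le_pow_left₀ h4 h3 2
  have h6 := mul_le_mul_of_nonneg_left h5 Real.pi_pos.le
  linarith

end Pool.Agent.H11.TS
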